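import Mathlib

namespace Pool.Agent.Results.MP_773b84_nt.Bounds

open Finset

/-- no element is a multiple of two other elements -/
def Adm (A : Finset ℕ) : Prop :=
  ¬ ∃ a ∈ A, ∃ b ∈ A, ∃ c ∈ A, a ≠ b ∧ a ≠ c ∧ b ≠ c ∧ b ∣ a ∧ c ∣ a

/-- largest size of an admissible subset of 1..n -/
noncomputable def g (n : ℕ) : ℕ := sSup {s | ∃ A : Finset ℕ, A ⊆ Icc 1 n ∧ Adm A ∧ A.card = s}

theorem cnt (n : ℕ) : ((Icc 1 n).filter fun x => x % 4 ≠ 0).card + n / 4 = n := by
  induction n with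
  | zero => simp
  | succ n ih =>
    rw [← insert_Icc_right_eq_Icc_add_one (by omega), filter_insert]
    split_ifs with h
    · rw [card_insert_of_notMem (by simp)]; omega
    · omega

theorem up (n : ℕ) (A : Finset ℕ) (hA : A ⊆ Icc 1 n) (h : Adm A) : A.card ≤ n - n / 4 := by
  classical
  have h1 : ∀ a : ℕ, ∃ k m : ℕ, a ≠ 0 → Odd m ∧ a = 2 ^ k * m := fun a => by
    by_cases e : a = 0
    · exact ⟨0, 0, fun h => absurd e h⟩
    · obtain ⟨k, m, h⟩ := Nat.exists_eq_two_pow_mul_odd e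
      exact ⟨k, m, fun _ => h⟩
  choose k m hkm using h1
  have hk : ∀ a ∈ A, m a % 2 = 1 ∧ a = 2 ^ k a * m a := fun a ha => by
    have := mem_Icc.1 (hA ha)
    exact ⟨Nat.odd_iff.1 (hkm a (by omega)).1, (hkm a (by omega)).2⟩
  have dv : ∀ a ∈ A, ∀ b ∈ A, m a = m b → k a ≤ k b → a ∣ b := fun a ha b hb e l => by
    rw [(hk a ha).2, (hk b hb).2, e]
    exact Nat.mul_dvd_mul_right (pow_dvd_pow _ l) _
  have eq : ∀ a ∈ A, ∀ b ∈ A, m a = m b → k a = k b → a = b := fun a ha b hb e l => by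
    rw [(hk a ha).2, (hk b hb).2, e, l]
  have := card_le_card_of_injOn (s := A) (t := (Icc 1 n).filter fun x => x % 4 ≠ 0)
    (fun a => if ∃ b ∈ A, m b = m a ∧ k b < k a then 2 * m a else m a) (by
      intro a ha
      have h2 := mem_Icc.1 (hA ha)
      obtain ⟨h3, h4⟩ := hk a ha
      have h5 : 0 < 2 ^ k a := by positivity
      simp only [coe_filter, mem_Icc, Set.mem_ofPred_eq]
      split_ifs with c
      · obtain ⟨b, -, -, c⟩ := c
        have h6 : 2 ≤ 2 ^ k a := Nat.le_self_pow (by omega) 2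
        have : 2 * m a ≤ a := by nlinarith
        omega
      · have : m a ≤ a := by nlinarith
        omega) (by
      intro a ha b hb e
      have p1 := (hk a ha).1
      have p2 := (hk b hb).1
      simp only at e
      by_contra ne
      split_ifs at e with c1 c2 c2
      · obtain ⟨x, x1, x2, x3⟩ := c1
        obtain ⟨y, y1, y2, y3⟩ := c2
        have e' : m a = m b := by omega
        have kk : k a ≠ k b := fun q => ne (eq a ha b hb e' q)
        rcases lt_or_gt_of_ne kk with l | l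
        · exact h ⟨b, hb, a, ha, x, x1, Ne.symm ne, by rintro rfl; omega, by rintro rfl; omega,
            dv a ha b hb e' l.le, dv x x1 b hb (by omega) (by omega)⟩
        · exact h ⟨a, ha, b, hb, y, y1, ne, by rintro rfl; omega, by rintro rfl; omega,
            dv b hb a ha e'.symm l.le, dv y y1 a ha (by omega) (by omega)⟩
      · omega
      · omega
      · have kk : k a ≠ k b := fun q => ne (eq a ha b hb e q)
        rcases lt_or_gt_of_ne kk with l | l
        · exact c2 ⟨a, ha, e, l⟩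
        · exact c1 ⟨b, hb, e.symm, l⟩)
  have := cnt n
  omega

theorem low (k : ℕ) : ∃ A : Finset ℕ, A ⊆ Icc 1 (24 * k) ∧ Adm A ∧ A.card = 17 * k := by
  let f : ℕ → ℕ := fun i => if i < 16 * k then 8 * k + 1 + i else 6 * k + 1 + 2 * (i - 16 * k)
  have hf : ∀ x ∈ (range (17 * k)).image f, 6 * k < x ∧ x ≤ 24 * k ∧ (8 * k < x ∨ x % 2 = 1) := by
    intro x hx
    obtain ⟨i, hi, rfl⟩ := mem_image.1 hx
    have := mem_range.1 hi
    simp only [f]
    split_ifs <;> omega
  refine ⟨(range (17 * k)).image f, fun x hx => ?_, ?_, ?_⟩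
  · have := hf x hx
    rw [mem_Icc]; omega
  · rintro ⟨a, ha, b, hb, c, hc, n1, n2, n3, ⟨x, hx⟩, ⟨y, hy⟩⟩
    have h1 := hf a ha
    have h2 := hf b hb
    have h3 := hf c hc
    have x4 : x < 4 := by by_contra e; nlinarith [h1.2.1, h2.1]
    have y4 : y < 4 := by by_contra e; nlinarith [h1.2.1, h3.1]
    interval_cases x <;> interval_cases y <;> omega
  · rw [card_image_of_injOn, card_range]
    intro i hi j hj e
    have := mem_range.1 hi
    have := mem_range.1 hj
    simp only [f] at e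
    split_ifs at e <;> omega

theorem result (n : ℕ) : 17 * (n / 24) ≤ g n ∧ g n ≤ n - n / 4 := by
  have hb : ∀ s ∈ {s | ∃ A : Finset ℕ, A ⊆ Icc 1 n ∧ Adm A ∧ A.card = s}, s ≤ n - n / 4 := by
    rintro s ⟨A, h1, h2, rfl⟩
    exact up n A h1 h2
  obtain ⟨A, h1, h2, h3⟩ := low (n / 24)
  have hm : 17 * (n / 24) ∈ {s | ∃ A : Finset ℕ, A ⊆ Icc 1 n ∧ Adm A ∧ A.card = s} :=
    ⟨A, h1.trans (Icc_subset_Icc_right (by omega)), h2, h3⟩
  exact ⟨le_csSup ⟨_, hb⟩ hm, csSup_le ⟨_, hm⟩ hb⟩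

end Pool.Agent.Results.MP_773b84_nt.Bounds
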